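import Pool.Agent.Q115.MR2

set_option autoImplicit false
open N6ef48c04

namespace Pool.Agent.Results.MP_964892_co.ExpanderReduction

/-!
# Reduction of Meyniel's conjecture to weak expanders

Proof idea. The robber is confined to a territory `U` with `m` vertices, `G[U]` connected. Suppose
that at the cost of `j` cops the territory can be reduced by at least `j √m / A` vertices. Summing up
`√m' + A (m - m') / (2 A √m) ≤ √m` one sees that such reductions cost at most `2 A √n` cops in all.
The reductions are: stationary cops on a set `T` of vertices whose closed neighbourhood cuts off a set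
`S` of at most `m / 2` vertices (the robber then is confined to `S` or to the complement of `S`); one
cop on a vertex of large degree; one cop who guards a long shortest path (Aigner, Fromme). If no
reduction is possible, `G[U]` is a weak expander. Small territories are swept with the theorem
`c ≤ 81 √m (log m + 1)` of the starting files.
-/

/-- The closed neighbourhood of `T` separates `S` from its complement: every edge which leaves `S`
has an end in the closed neighbourhood of `T`. -/
def CutOff {W : Type} (H : SimpleGraph W) (S T : Set W) : Prop :=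
  ∀ u ∈ S, ∀ v, v ∉ S → H.Adj u v → ∃ t ∈ T, Step H t u ∨ Step H t v

/-- Let `m` be the number of vertices of `H`. No set `S` of at most `m / 2` vertices is cut off by the
closed neighbourhood of fewer than `A |S| / √m` vertices, the degrees of `H` are at most
`√m / A - 1`, and the distances are at most `√m / A`. (With `T` the set of the neighbours of `S`
outside `S`, the first condition gives the vertex expansion `√m |∂S| ≥ A |S|`.) -/
def WeakExpander {W : Type} (H : SimpleGraph W) (A : ℝ) : Prop :=
  (∀ S T : Set W, 2 * S.ncard ≤ Nat.card W → CutOff H S T →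
    A * S.ncard ≤ √(Nat.card W) * T.ncard) ∧
  (∀ v, A * ((H.neighborSet v).ncard + 1) ≤ √(Nat.card W)) ∧
  ∀ x y, A * (H.dist x y : ℝ) ≤ √(Nat.card W)

/-- (1) Let `A > 0` and `K ≥ 2 A`. If a connected graph `G` on `n` vertices has cop number more than
`(81 + K) √n + 1`, then `G` has a connected induced subgraph `G[U]` on at least `n / (log n + 1) ^ 2`
vertices which is a weak expander with parameter `A` and has cop number more than
`81 √n + K √|U|`.
(2) For every `A > 0`, Meyniel's conjecture is equivalent to Meyniel's conjecture for weak expanders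
with parameter `A`. -/
theorem result :
    (∀ A K : ℝ, 0 < A → 2 * A ≤ K →
      ∀ (V : Type) [Fintype V] (G : SimpleGraph V), G.Connected →
        (81 + K) * √(Fintype.card V) + 1 < (copNumber G : ℝ) →
        ∃ U : Set V, (G.induce U).Connected ∧ WeakExpander (G.induce U) A ∧
          (Fintype.card V : ℝ) ≤ U.ncard * (Real.log (Fintype.card V) + 1) ^ 2 ∧
          81 * √(Fintype.card V) + K * √U.ncard < (copNumber (G.induce U) : ℝ)) ∧
    ∀ A : ℝ, 0 < A →
      ((∃ C : ℝ, 0 < C ∧ ∀ (V : Type) [Fintype V] (G : SimpleGraph V), G.Connected →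
        (copNumber G : ℝ) ≤ C * √(Fintype.card V)) ↔
      ∃ C : ℝ, 0 < C ∧ ∀ (V : Type) [Fintype V] (G : SimpleGraph V), G.Connected →
        WeakExpander G A → (copNumber G : ℝ) ≤ C * √(Fintype.card V)) := by
  classical
  refine ⟨fun A K hA hK V _ G hG hbig => ?_, fun A hA => ⟨?_, ?_⟩⟩
  · by_contra hcon
    push Not at hcon
    have : Nonempty V := hG.nonempty
    obtain ⟨n, hn⟩ : ∃ n : ℝ, n = (Fintype.card V : ℝ) := ⟨_, rfl⟩
    have hn1 : 1 ≤ n := by rw [hn]; exact_mod_cast Fintype.card_pos
    have hlog : 0 ≤ Real.log n := Real.log_nonneg hn1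
    have h := Pool.Agent.Q115.MR.reduction hG A (81 * √n) K hA (by positivity) hK ?_
    · rw [hn] at h
      linarith
    · intro U hU hW
      rw [← hn] at hcon
      by_cases hs : n ≤ U.ncard * (Real.log n + 1) ^ 2
      · exact hcon U hU hW hs
      · push Not at hs
        have : Fintype U := Fintype.ofFinite _
        have h1 := Pool.Agent.H594R2.Mey2.graph_bound (G.induce U) hU
        have hUc : (Fintype.card U : ℝ) = U.ncard := by
          rw [← Nat.card_eq_fintype_card]; rfl
        rw [hUc] at h1
        have hUn : (U.ncard : ℝ) ≤ n := by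
          rw [hn, ← Nat.card_eq_fintype_card]
          exact_mod_cast Set.ncard_le_card U
        have hU1 : (1 : ℝ) ≤ U.ncard := by
          obtain ⟨x⟩ := hU.nonempty
          have : 0 < U.ncard := (Set.ncard_pos (Set.toFinite _)).2 ⟨x, x.2⟩
          exact_mod_cast this
        have h2 : Real.log U.ncard ≤ Real.log n := Real.log_le_log (by linarith) hUn
        have h3 : √(U.ncard : ℝ) * (Real.log n + 1) ≤ √n := by
          rw [← Real.sqrt_sq (show 0 ≤ Real.log n + 1 by linarith), ← Real.sqrt_mul (by linarith)]
          exact Real.sqrt_le_sqrt hs.le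
        have h4 : 81 * √(U.ncard : ℝ) * (Real.log U.ncard + 1) ≤ 81 * √n := by
          calc 81 * √(U.ncard : ℝ) * (Real.log U.ncard + 1)
              ≤ 81 * √(U.ncard : ℝ) * (Real.log n + 1) :=
                mul_le_mul_of_nonneg_left (by linarith) (by positivity)
            _ = 81 * (√(U.ncard : ℝ) * (Real.log n + 1)) := by ring
            _ ≤ 81 * √n := by linarith
        have h5 : 0 ≤ K * √(U.ncard : ℝ) := mul_nonneg (by linarith) (Real.sqrt_nonneg _)
        linarith
  · rintro ⟨C, hC, h⟩
    exact ⟨C, hC, fun V _ G hG _ => h V G hG⟩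
  · rintro ⟨C, hC, h⟩
    refine ⟨max C (2 * A) + 1, by positivity, fun V _ G hG => ?_⟩
    have : Nonempty V := hG.nonempty
    have hn1 : (1 : ℝ) ≤ Fintype.card V := by exact_mod_cast Fintype.card_pos
    have h1 := Pool.Agent.Q115.MR.reduction hG A 0 (max C (2 * A)) hA le_rfl (le_max_right _ _) ?_
    · have h2 : 1 ≤ √(Fintype.card V : ℝ) := Real.one_le_sqrt.2 hn1
      linarith
    · intro U hU hW
      have : Fintype U := Fintype.ofFinite _
      have h2 := h U (G.induce U) hU hW
      have hUc : (Fintype.card U : ℝ) = U.ncard := by
        rw [← Nat.card_eq_fintype_card]; rfl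
      rw [hUc] at h2
      have h3 : C * √(U.ncard : ℝ) ≤ max C (2 * A) * √(U.ncard : ℝ) :=
        mul_le_mul_of_nonneg_right (le_max_left _ _) (Real.sqrt_nonneg _)
      linarith

end Pool.Agent.Results.MP_964892_co.ExpanderReduction
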