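import Pool.Agent.Q126.Spl.Play

/-!
# Meyniel's conjecture and splits

A split of a graph is a partition of its vertices into two sets with at least two elements each
such that the edges between the two sets form a complete bipartite graph between a subset of the
one and a subset of the other (modules, cut vertices, pendant vertices and twins give splits). Every
connected graph `G` has a connected induced subgraph `H` without a split such that
`c(H) ≤ c(G) ≤ c(H) + 1`. So Meyniel's conjecture holds if and only if it holds for the connected
graphs without a split.

Proof. Let `X` be a side of a split and let the robber be in `X`. A cop who stays at a vertex of `X`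
with a neighbour outside `X` catches him when he leaves `X`. For a vertex `a` outside `X` with a
neighbour in `X` the graph `G` has a retraction onto the subgraph induced by `X ∪ {a}`, and this
graph has a retraction onto a subgraph without a split which contains `a` and whose fibres are sides
of splits of `G`, or single vertices. The other cops catch the image of the robber in this subgraph.
Now the robber is in a smaller side of a split of `G`, in which a cop has a neighbour outside, and
the first cop is no longer needed.
-/

set_option autoImplicit false
open N6ef48c04

namespace Pool.Agent.Results.MP_964892_co.GraphsWithoutSplits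

open Pool.Agent.Q126.Spl in
/-- (1) Every connected graph has a connected induced subgraph without a split whose cop number is
the cop number of the graph or one less. (2) Meyniel's conjecture holds if and only if it holds for
the connected graphs without a split. -/
theorem result :
    (∀ (V : Type) [Fintype V] (G : SimpleGraph V), G.Connected →
      ∃ U : Set V, (G.induce U).Connected ∧ ¬ HasSplit (G.induce U) ∧
        copNumber (G.induce U) ≤ copNumber G ∧ copNumber G ≤ copNumber (G.induce U) + 1) ∧
    ((∃ C : ℝ, 0 < C ∧ ∀ (V : Type) [Fintype V] (G : SimpleGraph V), G.Connected →
        (copNumber G : ℝ) ≤ C * √(Fintype.card V)) ↔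
      (∃ C : ℝ, 0 < C ∧ ∀ (V : Type) [Fintype V] (G : SimpleGraph V), G.Connected →
        ¬ HasSplit G → (copNumber G : ℝ) ≤ C * √(Fintype.card V))) := by
  refine ⟨fun V _ G hG => main G hG, ?_, ?_⟩
  · rintro ⟨C, hC, h⟩
    exact ⟨C, hC, fun V _ G hG _ => h V G hG⟩
  · rintro ⟨C, hC, h⟩
    refine ⟨C + 1, by linarith, fun V _ G hG => ?_⟩
    obtain ⟨U, hUc, hUs, -, hU⟩ := main G hG
    have : Fintype U := Fintype.ofFinite _
    have h1 := h U (G.induce U) hUc hUs
    have h2 : (copNumber G : ℝ) ≤ copNumber (G.induce U) + 1 := by exact_mod_cast hU
    have h3 : (Fintype.card U : ℝ) ≤ Fintype.card V := by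
      exact_mod_cast Fintype.card_le_of_injective _ (Subtype.val_injective (p := fun x => x ∈ U))
    have h4 : √(Fintype.card U : ℝ) ≤ √(Fintype.card V : ℝ) := Real.sqrt_le_sqrt h3
    have : Nonempty V := hG.nonempty
    have h5 : (1 : ℝ) ≤ √(Fintype.card V : ℝ) := by
      rw [Real.one_le_sqrt]
      exact_mod_cast Fintype.card_pos
    nlinarith

end Pool.Agent.Results.MP_964892_co.GraphsWithoutSplits
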