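import Pool.Agent.Q126.MeyQ

/-!
# Meyniel's bound for products and for graphs with large modules

Meyniel's bound `c(G) = O(√n)` holds, with an absolute constant, for the Cartesian product and for
the strong product of any finite number of connected graphs, if no factor has more than
`n / (log n + 1)²` of the `n` vertices of the product; in particular for all proper powers of all
connected graphs. It also holds for every connected graph whose vertex set has a partition into at
least two and on average large modules.

Proof. The starting files (`H594R2.Mey2`) prove `c(G) ≤ 81 √n (log n + 1)` for all connected graphs.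
In the product of two graphs `G` and `H` a team of `c(G)` cops can catch the first coordinate of the
robber, and a cop who has it can keep it, by imitating the moves of the first coordinate. So
`c(H)` cops get the first coordinate, `c(G)` others the second coordinate. In each round one of the
two teams makes progress. So `2 (c(G) + c(H))` cops win. A product of `n` vertices without a
dominating factor is the product of two partial products with at least `(log n + 1)²` vertices each.
-/

set_option autoImplicit false
open N6ef48c04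

namespace Pool.Agent.Results.MP_964892_co.ProductsAndModules

/-- The Cartesian product of the graphs `G i`: adjacent are the families which are adjacent in one
coordinate and equal in all the others. -/
def cartesian {ι : Type} {V : ι → Type} (G : ∀ i, SimpleGraph (V i)) :
    SimpleGraph (∀ i, V i) where
  Adj x y := ∃ i, (G i).Adj (x i) (y i) ∧ ∀ j, j ≠ i → x j = y j
  symm := ⟨fun _ _ ⟨i, h1, h2⟩ => ⟨i, h1.symm, fun j hj => (h2 j hj).symm⟩⟩
  loopless := ⟨fun x ⟨i, h1, _⟩ => (G i).loopless.irrefl (x i) h1⟩

/-- The strong product of the graphs `G i`: adjacent are the different families all whose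
coordinates are equal or adjacent. -/
def strong {ι : Type} {V : ι → Type} (G : ∀ i, SimpleGraph (V i)) :
    SimpleGraph (∀ i, V i) where
  Adj x y := x ≠ y ∧ ∀ i, x i = y i ∨ (G i).Adj (x i) (y i)
  symm := ⟨fun _ _ h => ⟨h.1.symm, fun i => (h.2 i).imp Eq.symm fun h => h.symm⟩⟩
  loopless := ⟨fun _ h => h.1 rfl⟩

open Pool.Agent.Q126.MeyP in
/-- (1) Products of connected graphs with `n` vertices altogether and without a dominating factor,
that is, each factor has at most `n / (log n + 1)²` vertices.
(2) All the powers `G ^ d`, `d ≥ 2`, of all connected graphs `G`.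
(3) Graphs with a partition (the fibres of `f`) into at least two modules: whether vertices of
different classes are adjacent only depends on the classes, and is given by the graph `Q`. -/
theorem result :
    (∀ (ι : Type) [Fintype ι] (V : ι → Type) [∀ i, Fintype (V i)] (G : ∀ i, SimpleGraph (V i)),
      (∀ i, (G i).Connected) → ∀ n : ℕ, n = ∏ i, Fintype.card (V i) →
      (∀ i, (Fintype.card (V i) : ℝ) * (Real.log n + 1) ^ 2 ≤ n) →
      (copNumber (cartesian G) : ℝ) ≤ 1782 * √n ∧ (copNumber (strong G) : ℝ) ≤ 1782 * √n) ∧
    (∀ (V : Type) [Fintype V] (G : SimpleGraph V), G.Connected → ∀ d : ℕ, 2 ≤ d →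
      (copNumber (cartesian fun _ : Fin d => G) : ℝ) ≤ 1782 * √((Fintype.card V : ℝ) ^ d) ∧
      (copNumber (strong fun _ : Fin d => G) : ℝ) ≤ 1782 * √((Fintype.card V : ℝ) ^ d)) ∧
    (∀ (V W : Type) [Fintype V] [Fintype W] (G : SimpleGraph V) (Q : SimpleGraph W)
      (f : V → W), G.Connected → Nontrivial W → Function.Surjective f →
      (∀ u v, f u ≠ f v → (G.Adj u v ↔ Q.Adj (f u) (f v))) →
      copNumber G ≤ copNumber Q + 1 ∧
      ((Fintype.card W : ℝ) * (Real.log (Fintype.card W) + 1) ^ 2 ≤ Fintype.card V →
        (copNumber G : ℝ) ≤ 82 * √(Fintype.card V))) := by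
  classical
  have hcart : ∀ {ι : Type} {V : ι → Type} (G : ∀ i, SimpleGraph (V i)),
      cartesian G = piBox G := fun _ => rfl
  have hstr : ∀ {ι : Type} {V : ι → Type} (G : ∀ i, SimpleGraph (V i)),
      strong G = piStrong G := fun _ => rfl
  -- part (1)
  have part1 : ∀ (ι : Type) [Fintype ι] (V : ι → Type) [∀ i, Fintype (V i)]
      (G : ∀ i, SimpleGraph (V i)), (∀ i, (G i).Connected) → ∀ n : ℕ,
      n = ∏ i, Fintype.card (V i) →
      (∀ i, (Fintype.card (V i) : ℝ) * (Real.log n + 1) ^ 2 ≤ n) →
      (copNumber (cartesian G) : ℝ) ≤ 1782 * √n ∧ (copNumber (strong G) : ℝ) ≤ 1782 * √n := by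
    intro ι _ V _ G hG n hn h
    have : ∀ i, Nonempty (V i) := fun i => (hG i).nonempty
    have hcard : Fintype.card (∀ i, V i) = n := by rw [hn, Fintype.card_pi]
    rw [hcart, hstr, ← hcard]
    rw [← hcard] at h
    constructor
    · refine product_bound (c := copNumber (piBox G))
        (fun S => copNumber (piBox fun i : {i // S i} => G i)) 2 (by norm_num) le_rfl
        (Pool.Agent.H594R2.Mey2.graph_bound _ (piBox_connected G hG)) (fun S => ?_) (fun S => ?_) h
      · exact_mod_cast copNumber_piBox G hG S
      · rw [Nat.card_eq_fintype_card]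
        exact Pool.Agent.H594R2.Mey2.graph_bound _ (piBox_connected _ fun i => hG i)
    · refine product_bound (c := copNumber (piStrong G))
        (fun S => copNumber (piStrong fun i : {i // S i} => G i)) 1 le_rfl (by norm_num)
        (Pool.Agent.H594R2.Mey2.graph_bound _ (piStrong_connected G hG)) (fun S => ?_)
        (fun S => ?_) h
      · rw [one_mul]
        exact_mod_cast copNumber_piStrong G hG S
      · rw [Nat.card_eq_fintype_card]
        exact Pool.Agent.H594R2.Mey2.graph_bound _ (piStrong_connected _ fun i => hG i)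
  refine ⟨part1, ?_, ?_⟩
  · intro V _ G hG d hd
    have hne : Nonempty V := hG.nonempty
    set a : ℕ := Fintype.card V with ha
    have ha1 : 1 ≤ a := Fintype.card_pos
    have ha1' : (1 : ℝ) ≤ a := by exact_mod_cast ha1
    have hprod : a ^ d = ∏ _i : Fin d, Fintype.card V := by simp [ha]
    have hcast : ((a ^ d : ℕ) : ℝ) = (a : ℝ) ^ d := by push_cast; rfl
    have hp := part1 (Fin d) (fun _ => V) (fun _ => G) (fun _ => hG) (a ^ d) hprod
    rw [hcast] at hp
    set Λ : ℝ := Real.log ((a : ℝ) ^ d) + 1 with hΛ
    have hn1 : (1 : ℝ) ≤ (a : ℝ) ^ d := one_le_pow₀ ha1'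
    by_cases hc : (a : ℝ) * Λ ^ 2 ≤ (a : ℝ) ^ d
    · exact hp fun _ => hc
    · push Not at hc
      have hΛ1 : 1 ≤ Λ := by
        have := Real.log_nonneg hn1
        linarith
      have hΛ22 : Λ ≤ 22 := by
        by_contra hcon
        push Not at hcon
        have h1 := pow_six_le hcon.le
        rw [hΛ, add_sub_cancel_right, Real.exp_log (by linarith), ← hΛ] at h1
        obtain ⟨e, rfl⟩ : ∃ e, d = e + 2 := ⟨d - 2, by omega⟩
        have h2 : (a : ℝ) ^ (e + 1) < Λ ^ 2 := by
          have h3 : (a : ℝ) * (a : ℝ) ^ (e + 1) < a * Λ ^ 2 := by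
            rw [← pow_succ']; exact hc
          exact lt_of_mul_lt_mul_left h3 (by linarith)
        have h3 : (a : ℝ) ^ (e + 2) ≤ (a : ℝ) ^ (e + 1) * (a : ℝ) ^ (e + 1) := by
          rw [← pow_add]
          exact pow_le_pow_right₀ ha1' (by omega)
        have h4 : (a : ℝ) ^ (e + 1) * (a : ℝ) ^ (e + 1) ≤ Λ ^ 2 * Λ ^ 2 :=
          mul_le_mul h2.le h2.le (by positivity) (by positivity)
        have h5 : Λ ^ 2 * Λ ^ 2 < Λ ^ 6 := by
          have : Λ ^ 6 = Λ ^ 2 * Λ ^ 2 * Λ ^ 2 := by ring
          rw [this]
          have h6 : 1 < Λ ^ 2 := by nlinarith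
          have h7 : 0 < Λ ^ 2 * Λ ^ 2 := by positivity
          nlinarith
        linarith
      have hcard : Fintype.card (Fin d → V) = a ^ d := by simp [ha]
      have hs0 : 0 ≤ √((a : ℝ) ^ d) := Real.sqrt_nonneg _
      have hgen : ∀ P : SimpleGraph (Fin d → V), P.Connected →
          (copNumber P : ℝ) ≤ 1782 * √((a : ℝ) ^ d) := by
        intro P hP
        have h1 := Pool.Agent.H594R2.Mey2.graph_bound P hP
        rw [hcard, hcast] at h1
        refine h1.trans ?_
        nlinarith
      rw [hcart, hstr]
      exact ⟨hgen _ (piBox_connected _ fun _ => hG), hgen _ (piStrong_connected _ fun _ => hG)⟩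
  · intro V W _ _ G Q f hG hW hf hQ
    obtain ⟨hQc, hle⟩ := copNumber_modules G Q hG f hf hW hQ
    refine ⟨hle, fun hcard => ?_⟩
    have hb := Pool.Agent.H594R2.Mey2.graph_bound Q hQc
    have hle' : (copNumber G : ℝ) ≤ copNumber Q + 1 := by exact_mod_cast hle
    have : Nonempty V := hG.nonempty
    have hV1 : (1 : ℝ) ≤ Fintype.card V := by
      have : 1 ≤ Fintype.card V := Fintype.card_pos
      exact_mod_cast this
    have hW1 : (1 : ℝ) ≤ Fintype.card W := by
      have : 1 ≤ Fintype.card W := Fintype.card_pos
      exact_mod_cast this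
    have hs1 : 1 ≤ √(Fintype.card V : ℝ) := Real.one_le_sqrt.2 hV1
    have hl : 0 ≤ Real.log (Fintype.card W) := Real.log_nonneg hW1
    have hkey : √(Fintype.card W : ℝ) * (Real.log (Fintype.card W) + 1) ≤
        √(Fintype.card V : ℝ) := by
      apply Real.le_sqrt_of_sq_le
      rw [mul_pow, Real.sq_sqrt (by linarith)]
      exact hcard
    nlinarith

end Pool.Agent.Results.MP_964892_co.ProductsAndModules
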