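import Pool.Agent.Q116.MY.Dbl
import Pool.Agent.Q116.MY.Cns

/-!
# Reduction of Meyniel's conjecture to graphs which are robust against retracts and separators

Proof idea. Cops who have caught the shadows of the robber in `j` retracts of the graph keep him out
of these retracts, so that he is in a component of the rest. The shadows are caught one after the
other, by cops who win on the (smaller) retracts. If this reduces the territory of the robber by at
least `j √m / A` vertices, where `m` is the number of vertices, such reductions cost at most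
`4 A √n` cops in all. A set `X` of `w` vertices can be guarded by two teams of
`O(√(w D log log m) log m)` cops who relieve each other (theorem of the starting files); if this
reduces the territory by enough vertices the price is paid in the same way. If no reduction is
possible, the territory induces a robust graph. The closed bipartite double of a graph has at least
its cop number, and induced subgraphs of the double are bipartite.
-/

set_option autoImplicit false
open N6ef48c04

namespace Pool.Agent.Results.MP_964892_co.RobustReduction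

open Q116MY

/-- The graph `H` is connected and robust (with parameter `A`) against proper retracts and against
separators. -/
def Robust {W : Type} (H : SimpleGraph W) (A : ℝ) : Prop :=
  H.Connected ∧ RetractRobust H A ∧ SeparatorRobust H A

/-- A class of graphs which is closed under induced subgraphs. -/
def Hereditary (F : (V : Type) → SimpleGraph V → Prop) : Prop :=
  ∀ (V W : Type) (G : SimpleGraph V) (H : SimpleGraph W), Nonempty (H ↪g G) → F V G → F W H

theorem part1 (A K : ℝ) (hA : 0 < A) (hK : 4 * A ≤ K) (V : Type) [Fintype V]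
    (G : SimpleGraph V) (hG : G.Connected)
    (hbig : (81 + K) * √(Fintype.card V) + 1 < (copNumber G : ℝ)) :
    ∃ (W : Type) (_ : Fintype W) (H : SimpleGraph W), Nonempty (H ↪g G) ∧ Robust H A ∧
      (Fintype.card V : ℝ) ≤ Fintype.card W * (Real.log (Fintype.card V) + 1) ^ 2 ∧
      81 * √(Fintype.card V) + K * √(Fintype.card W) < (copNumber H : ℝ) := by
  by_contra hcon
  push Not at hcon
  have : Nonempty V := hG.nonempty
  obtain ⟨n, hn⟩ : ∃ n : ℝ, n = (Fintype.card V : ℝ) := ⟨_, rfl⟩
  have hn1 : 1 ≤ n := by rw [hn]; exact_mod_cast Fintype.card_pos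
  have hlog : 0 ≤ Real.log n := Real.log_nonneg hn1
  have h := reductionR hG A (81 * √n) K hA (by positivity) hK ?_
  · rw [hn] at h
    linarith
  · intro W _ H hemb hH hR hS
    rw [← hn] at hcon
    by_cases hs : n ≤ Fintype.card W * (Real.log n + 1) ^ 2
    · exact hcon W inferInstance H hemb ⟨hH, hR, hS⟩ hs
    · push Not at hs
      obtain ⟨f⟩ := hemb
      have h1 := Pool.Agent.H594R2.Mey2.graph_bound H hH
      have hUn : (Fintype.card W : ℝ) ≤ n := by
        rw [hn]
        exact_mod_cast Fintype.card_le_of_injective f f.injective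
      have hU1 : (1 : ℝ) ≤ Fintype.card W := by
        have : Nonempty W := hH.nonempty
        exact_mod_cast Fintype.card_pos
      have h2 : Real.log (Fintype.card W) ≤ Real.log n := Real.log_le_log (by linarith) hUn
      have h3 : √(Fintype.card W : ℝ) * (Real.log n + 1) ≤ √n := by
        rw [← Real.sqrt_sq (show 0 ≤ Real.log n + 1 by linarith), ← Real.sqrt_mul (by linarith)]
        exact Real.sqrt_le_sqrt hs.le
      have h4 : 81 * √(Fintype.card W : ℝ) * (Real.log (Fintype.card W) + 1) ≤ 81 * √n := by
        calc 81 * √(Fintype.card W : ℝ) * (Real.log (Fintype.card W) + 1)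
            ≤ 81 * √(Fintype.card W : ℝ) * (Real.log n + 1) :=
              mul_le_mul_of_nonneg_left (by linarith) (by positivity)
          _ = 81 * (√(Fintype.card W : ℝ) * (Real.log n + 1)) := by ring
          _ ≤ 81 * √n := by linarith
      have h5 : 0 ≤ K * √(Fintype.card W : ℝ) := mul_nonneg (by linarith) (Real.sqrt_nonneg _)
      linarith

theorem part2 (A : ℝ) (hA : 0 < A) (F : (V : Type) → SimpleGraph V → Prop) (hF : Hereditary F) :
    (∃ C : ℝ, 0 < C ∧ ∀ (V : Type) [Fintype V] (G : SimpleGraph V), F V G → G.Connected →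
      (copNumber G : ℝ) ≤ C * √(Fintype.card V)) ↔
    ∃ C : ℝ, 0 < C ∧ ∀ (V : Type) [Fintype V] (G : SimpleGraph V), F V G → Robust G A →
      (copNumber G : ℝ) ≤ C * √(Fintype.card V) := by
  constructor
  · rintro ⟨C, hC, h⟩
    exact ⟨C, hC, fun V _ G hFG hG => h V G hFG hG.1⟩
  · rintro ⟨C, hC, h⟩
    refine ⟨max C (4 * A) + 1, by positivity, fun V _ G hFG hG => ?_⟩
    have : Nonempty V := hG.nonempty
    have hn1 : (1 : ℝ) ≤ Fintype.card V := by exact_mod_cast Fintype.card_pos
    have h1 := reductionR hG A 0 (max C (4 * A)) hA le_rfl (le_max_right _ _) ?_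
    · have h2 : 1 ≤ √(Fintype.card V : ℝ) := Real.one_le_sqrt.2 hn1
      linarith
    · intro W _ H hemb hH hR hS
      have h2 := h W H (hF V W G H hemb hFG) ⟨hH, hR, hS⟩
      have h3 : C * √(Fintype.card W : ℝ) ≤ max C (4 * A) * √(Fintype.card W : ℝ) :=
        mul_le_mul_of_nonneg_right (le_max_left _ _) (Real.sqrt_nonneg _)
      linarith

theorem part3 (A : ℝ) (hA : 0 < A) :
    (∃ C : ℝ, 0 < C ∧ ∀ (V : Type) [Fintype V] (G : SimpleGraph V), G.Connected →
      (copNumber G : ℝ) ≤ C * √(Fintype.card V)) ↔
    ∃ C : ℝ, 0 < C ∧ ∀ (V : Type) [Fintype V] (G : SimpleGraph V), G.IsBipartite → Robust G A →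
      (copNumber G : ℝ) ≤ C * √(Fintype.card V) := by
  constructor
  · rintro ⟨C, hC, h⟩
    exact ⟨C, hC, fun V _ G _ hG => h V G hG.1⟩
  · intro h
    have hF : Hereditary fun V G => G.IsBipartite := by
      rintro V W G H ⟨f⟩ hG
      exact SimpleGraph.Colorable.of_hom f.toHom hG
    obtain ⟨C, hC, h⟩ := (part2 A hA (fun V G => G.IsBipartite) hF).2 h
    refine ⟨C * √2, by positivity, fun V _ G hG => ?_⟩
    have h1 := h (V × Bool) (double G) double_bipartite (double_connected hG)
    have h2 : (copNumber G : ℝ) ≤ copNumber (double G) := by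
      exact_mod_cast copNumber_le_double hG
    have h3 : ((Fintype.card (V × Bool) : ℕ) : ℝ) = 2 * Fintype.card V := by
      rw [Fintype.card_prod, Fintype.card_bool]
      push_cast
      ring
    rw [h3, Real.sqrt_mul (by norm_num)] at h1
    linarith

/-- (1) Let `A > 0` and `K ≥ 4 A`. If a connected graph `G` on `n` vertices has cop number more than
`(81 + K) √n + 1`, then `G` has a connected robust induced subgraph `H` on
`m ≥ n / (log n + 1) ^ 2` vertices with cop number more than `81 √n + K √m`.
(2) For every `A > 0` and every class `F` of graphs which is closed under induced subgraphs, the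
bound `c = O(√n)` holds for the connected graphs of `F` if it holds for the robust ones.
(3) For every `A > 0`, Meyniel's conjecture is equivalent to Meyniel's conjecture for robust
bipartite graphs.
(4) A robust graph with `m ≥ 2` vertices, `A √m ≥ 2`, is a weak expander with parameter `A`, has no
split, and no neighbourhood of a vertex is contained in the closed neighbourhood of another one. -/
theorem result :
    (∀ A K : ℝ, 0 < A → 4 * A ≤ K → ∀ (V : Type) [Fintype V] (G : SimpleGraph V), G.Connected →
      (81 + K) * √(Fintype.card V) + 1 < (copNumber G : ℝ) →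
      ∃ (W : Type) (_ : Fintype W) (H : SimpleGraph W), Nonempty (H ↪g G) ∧ Robust H A ∧
        (Fintype.card V : ℝ) ≤ Fintype.card W * (Real.log (Fintype.card V) + 1) ^ 2 ∧
        81 * √(Fintype.card V) + K * √(Fintype.card W) < (copNumber H : ℝ)) ∧
    (∀ A : ℝ, 0 < A → ∀ F : (V : Type) → SimpleGraph V → Prop, Hereditary F →
      ((∃ C : ℝ, 0 < C ∧ ∀ (V : Type) [Fintype V] (G : SimpleGraph V), F V G → G.Connected →
        (copNumber G : ℝ) ≤ C * √(Fintype.card V)) ↔
      ∃ C : ℝ, 0 < C ∧ ∀ (V : Type) [Fintype V] (G : SimpleGraph V), F V G → Robust G A →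
        (copNumber G : ℝ) ≤ C * √(Fintype.card V))) ∧
    (∀ A : ℝ, 0 < A →
      ((∃ C : ℝ, 0 < C ∧ ∀ (V : Type) [Fintype V] (G : SimpleGraph V), G.Connected →
        (copNumber G : ℝ) ≤ C * √(Fintype.card V)) ↔
      ∃ C : ℝ, 0 < C ∧ ∀ (V : Type) [Fintype V] (G : SimpleGraph V), G.IsBipartite → Robust G A →
        (copNumber G : ℝ) ≤ C * √(Fintype.card V))) ∧
    ∀ (A : ℝ) (W : Type) [Fintype W] (H : SimpleGraph W), 0 < A → 2 ≤ Fintype.card W →
      2 ≤ A * √(Fintype.card W) → Robust H A →
      Pool.Agent.Q115.MR.WeakExpander H A ∧ ¬ Pool.Agent.Q126.Spl.HasSplit H ∧ Stiff H := by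
  refine ⟨part1, part2, part3, ?_⟩
  rintro A W _ H hA hm hAm ⟨hH, hR, _⟩
  rw [← Nat.card_eq_fintype_card] at hm hAm
  exact ⟨weakExpander hH hA hR hm hAm, not_hasSplit hH hA hR hAm, stiff hA hR hm hAm⟩

end Pool.Agent.Results.MP_964892_co.RobustReduction
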